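import Pool.Agent.LibG44.S1
import Pool.Agent.LibHG80.SuppHG
import Pool.Agent.LibWor51.Final
import Pool.Agent.LibWor51.NB
import Pool.Agent.LibWor51.ST

/-! The theorem: `K_2(E)` modulo the symbols `{f, e}`, `f ∈ F*`, `e ∈ E*`, is a torsion group. -/

set_option autoImplicit false

namespace Pool.Agent.LibG44

open Polynomial Module Pool.Agent.LibK2Tower Pool.Agent.LibG64

universe u w

theorem smul_torsion {A : Type*} [AddCommGroup A] [Module ℚ A] (m : ℕ) (a : A) (hm : m ≠ 0)
    (h : m • a = 0) : a = 0 := by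
  rw [← Nat.cast_smul_eq_nsmul ℚ] at h
  exact (smul_eq_zero.1 h).resolve_left (Nat.cast_ne_zero.2 hm)

/-- `F` of characteristic `p`, all elements have all roots; `E = F(ζ)`, `ζ` a root of unity. Then every element
of `K_2(E)` has a positive multiple which is a sum of symbols `{f, e}`, `f ∈ F*`, `e ∈ E*`. -/
theorem k2_torsion {F : Type w} {E : Type u} [Field F] [Field E] [Algebra F E] {p : ℕ}
    [Fact p.Prime] [CharP F p] (hdiv : ∀ m : ℕ, 1 ≤ m → ∀ x : F, ∃ y : F, y ^ m = x) {ζ : E} {m : ℕ}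
    (hm : 0 < m) (hζ : ζ ^ m = 1) (hgen : Algebra.adjoin F {ζ} = ⊤) (x : K2 E) :
    ∃ M : ℕ, 0 < M ∧ M • x ∈ baseSymbols F E := by
  refine torsion_of_glue (p := p) hm hζ hgen ?_ ?_ x
  · intro s hs n hn y hy hirr hne c hmul hfrob hconst
    refine Pool.Agent.LibHG80.supp_of (m := s) (by omega) hdiv (fun x => iterateFrobenius_def p s x) hn hy
      hirr hne ?_ c hmul hconst hfrob
    intro a ha
    exact smul_torsion _ a (pow_ne_zero _ (Fact.out : p.Prime).ne_zero) ha
  · intro s hs n hn b S y hy _ hne hpl hb' g hg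
    have hfr : IsFrob (iterateFrobenius F p s) (p ^ s) :=
      ⟨by
        calc 2 ≤ p := (Fact.out : p.Prime).two_le
          _ = p ^ 1 := (pow_one p).symm
          _ ≤ p ^ s := Nat.pow_le_pow_right (Fact.out : p.Prime).pos hs,
        fun x => iterateFrobenius_def p s x⟩
    exact Wor51.glue_holds hdiv hfr (by omega) (fun m a hm h => smul_torsion m a hm h)
      (fun _ _ _ B => Wor51.nb B) (fun _ _ _ B => Wor51.st B) b S y hy hne hpl hb' g hg

end Pool.Agent.LibG44

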