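import Pool.Agent.LibG44.Ind
import Pool.Agent.LibG64.Defs

/-! The bridge between the symbols `Sym` and the local systems `Sys`. -/

set_option autoImplicit false

namespace Pool.Agent.LibG44

open Polynomial Pool.Agent.LibG64

variable {F : Type*} [Field F] {A : Type*} [AddCommGroup A] [Module ℚ A]

lemma natDegree_lt_of_W {n : ℕ} {g : F[X]} (hg : g ∈ W F n) : g.natDegree < n := by
  have h := hg.2
  rwa [degree_eq_natDegree hg.1, Nat.cast_lt] at h

lemma mem_W {n : ℕ} {g : F[X]} (hg : g ≠ 0) (h : g.natDegree < n) : g ∈ W F n := by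
  refine ⟨hg, ?_⟩
  rwa [degree_eq_natDegree hg, Nat.cast_lt]

lemma mod_mem_W {P : F[X]} (hm : P.Monic) (hP : Irreducible P) {g : F[X]} (hg : ¬ P ∣ g) :
    g %ₘ P ∈ W F P.natDegree := by
  refine ⟨fun h => hg ((modByMonic_eq_zero_iff_dvd hm).1 h), ?_⟩
  have := degree_modByMonic_lt g hm
  rwa [degree_eq_natDegree hm.ne_zero] at this

lemma map_mem_W {σ : F →+* F} {n : ℕ} {g : F[X]} (hg : g ∈ W F n) : g.map σ ∈ W F n := by
  refine ⟨Sym.map_ne hg.1, ?_⟩
  rw [degree_map_eq_of_injective σ.injective]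
  exact hg.2

omit [Module ℚ A] in
/-- A symbol on reduced polynomials gives a symbol on all polynomials. -/
lemma exists_sym {σ : F →+* F} {Q : ℕ} {P : F[X]} (hm : P.Monic) (hP : Irreducible P)
    {b : F[X] → F[X] → A} (hb : QSym σ Q P b) :
    ∃ S : Sym P A, ∀ f ∈ W F P.natDegree, ∀ g ∈ W F P.natDegree, S.b f g = b f g := by
  have hlt : ∀ g : F[X], g ∈ W F P.natDegree → g %ₘ P = g := by
    intro g hg
    rw [modByMonic_eq_self_iff hm, degree_eq_natDegree hm.ne_zero]
    exact hg.2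
  have hd0 : 0 < P.natDegree := by
    rcases Nat.eq_zero_or_pos P.natDegree with h | h
    · exfalso
      rw [eq_one_of_monic_natDegree_zero hm h] at hP
      exact hP.not_isUnit isUnit_one
    · exact h
  have hC : ∀ a : F, a ≠ 0 → (C a : F[X]) ∈ W F P.natDegree := fun a ha =>
    mem_W (C_ne_zero.2 ha) (by rw [natDegree_C]; exact hd0)
  have mulmod : ∀ g g' : F[X], (g * g') %ₘ P = ((g %ₘ P) * (g' %ₘ P)) %ₘ P := by
    intro g g'
    rw [← sub_eq_zero, ← sub_modByMonic, modByMonic_eq_zero_iff_dvd hm]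
    have e1 := modByMonic_add_div g P
    have e2 := modByMonic_add_div g' P
    refine ⟨(g /ₘ P) * g' + (g %ₘ P) * (g' /ₘ P), ?_⟩
    linear_combination (-g') * e1 - (g %ₘ P) * e2
  have cong : ∀ g g' : F[X], P ∣ g - g' → g %ₘ P = g' %ₘ P := by
    intro g g' h
    rw [← sub_eq_zero, ← sub_modByMonic, modByMonic_eq_zero_iff_dvd hm]
    exact h
  have mulr : ∀ h ∈ W F P.natDegree, ∀ f ∈ W F P.natDegree, ∀ g ∈ W F P.natDegree,
      b h ((f * g) %ₘ P) = b h f + b h g := by
    intro h hh f hf g hg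
    have hfg : (f * g) %ₘ P ∈ W F P.natDegree :=
      mod_mem_W hm hP (Sym.not_dvd_mul hP (Sym.not_dvd_of_deg hf.1 (natDegree_lt_of_W hf))
        (Sym.not_dvd_of_deg hg.1 (natDegree_lt_of_W hg)))
    rw [hb.anti h hh _ hfg, hb.mul f hf g hg h hh, hb.anti h hh f hf, hb.anti h hh g hg,
      neg_add]
  refine ⟨⟨fun g h => b (g %ₘ P) (h %ₘ P), ?_, ?_, ?_, ?_, ?_, ?_⟩, ?_⟩
  · intro g g' h hg hg' hh
    rw [mulmod]
    exact hb.mul _ (mod_mem_W hm hP hg) _ (mod_mem_W hm hP hg') _ (mod_mem_W hm hP hh)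
  · intro g h h' hg hh hh'
    rw [mulmod]
    exact mulr _ (mod_mem_W hm hP hg) _ (mod_mem_W hm hP hh) _ (mod_mem_W hm hP hh')
  · intro g g' h _ _ hd
    rw [cong g g' hd]
  · intro g h h' _ _ hd
    rw [cong h h' hd]
  · intro g h hg hh hd
    have h1 : g %ₘ P + h %ₘ P = 1 := by
      rw [← add_modByMonic]
      have h2 := cong (g + h) 1 hd
      rw [h2]
      exact hlt 1 (by simpa using hC 1 one_ne_zero)
    show b (g %ₘ P) (h %ₘ P) = 0
    have hg' := mod_mem_W hm hP hg
    have hh' := mod_mem_W hm hP hh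
    have hone : (1 : F[X]) ∈ W F P.natDegree := by simpa using hC 1 one_ne_zero
    have c1 : ∀ f ∈ W F P.natDegree, b 1 f = 0 := by
      intro f hf
      have := hb.const 1 one_ne_zero f hf
      simpa using this
    rw [hb.tri _ hg' _ hh' (by rw [h1]; exact one_ne_zero), h1, hb.anti _ hg' _ hone, c1 _ hg',
      c1 _ hh', neg_zero, add_zero]
  · intro a h ha hh
    show b (C a %ₘ P) (h %ₘ P) = 0
    rw [hlt _ (hC a ha)]
    exact hb.const a ha _ (mod_mem_W hm hP hh)
  · intro f hf g hg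
    show b (f %ₘ P) (g %ₘ P) = b f g
    rw [hlt f hf, hlt g hg]

/-- The conclusion `b' = 0` for symbols on reduced polynomials. -/
lemma qsym_zero {σ : F →+* F} {Q n : ℕ} (hPP : PP F A σ Q n) {P : F[X]} (hm : P.Monic)
    (hP : Irreducible P) (dP : P.natDegree = n) {b : F[X] → F[X] → A} (hb : QSym σ Q P b) :
    ∀ f ∈ W F n, ∀ g ∈ W F n, b f g = 0 := by
  obtain ⟨S, hS⟩ := exists_sym hm hP hb
  rw [dP] at hS
  have hF : S.Frob σ Q := by
    intro g h hg hh dg dh
    rw [dP] at dg dh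
    have hgW := mem_W hg dg
    have hhW := mem_W hh dh
    have h1 := hb.frob g (by rw [dP]; exact hgW) h (by rw [dP]; exact hhW)
    rw [hS _ (map_mem_W hgW) _ hhW, hS g hgW h hhW, h1, Nat.cast_smul_eq_nsmul]
  intro f hf g hg
  have h1 := hPP P hm hP dP S hF f g
    (Sym.not_dvd_of_deg hf.1 (by rw [dP]; exact natDegree_lt_of_W hf))
    (Sym.not_dvd_of_deg hg.1 (by rw [dP]; exact natDegree_lt_of_W hg))
  rwa [hS f hf g hg] at h1

/-- The statement of (HG) for places. -/
def HGS (F : Type*) [Field F] (A : Type*) [AddCommGroup A] (σ : F →+* F) (Q n : ℕ) : Prop :=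
  ∀ y : F[X], Mon n y → Irreducible y → y.map σ ≠ y → ∀ c : F[X] → A,
    (∀ f ∈ W F n, ∀ g ∈ W F n, c ((f * g) %ₘ y) = c f + c g) →
    (∀ f ∈ W F n, c (f.map σ) = Q • c f) → (∀ a : F, a ≠ 0 → c (C a) = 0) → Supp (Pl σ y) n c

/-- The statement of the gluing argument. -/
def Glue (F : Type*) [Field F] (A : Type*) [AddCommGroup A] (σ : F →+* F) (Q n : ℕ) : Prop :=
  ∀ b : F[X] → F[X] → A, Sys σ Q n b → ∀ y : F[X], Mon n y → Irreducible y → y.map σ ≠ y →
    (Pl σ y).Nonempty →
    (∀ b' : F[X] → F[X] → A, QSym σ Q y b' → ∀ f ∈ W F n, ∀ g ∈ W F n, b' f g = 0) →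
    ∀ g ∈ W F n, b g y = 0

lemma irreducible_of_mult {Γ : Type*} [LinearOrderedCommGroupWithZero Γ] {v : Valuation F Γ}
    {n : ℕ} (hn : 0 < n) {y : F[X]} (hy : Mon n y) (h : Mult v y) : Irreducible y := by
  have hu : y ≠ 1 := by
    intro h1
    have h2 := hy.2
    rw [h1, natDegree_one] at h2
    omega
  by_contra hirr
  obtain ⟨f, g, hf, hg, hfg, df, dg⟩ : ∃ f g : F[X], f.Monic ∧ g.Monic ∧ f * g = y ∧
      f.natDegree < n ∧ g.natDegree < n := by
    by_contra hc
    apply hirr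
    rw [hy.1.irreducible_iff_natDegree']
    refine ⟨hu, fun f g hf hg' hfg hmem => hc ⟨f, g, hf, hg', hfg, ?_⟩⟩
    have e := congrArg natDegree hfg
    rw [hf.natDegree_mul hg', hy.2] at e
    rw [Finset.mem_Ioc] at hmem
    rw [hy.2] at hmem
    constructor <;> omega
  have hdy : y.degree = n := by rw [degree_eq_natDegree hy.1.ne_zero, hy.2]
  have h1 := h f g (by rw [hdy, degree_eq_natDegree hf.ne_zero, Nat.cast_lt]; exact df)
    (by rw [hdy, degree_eq_natDegree hg.ne_zero, Nat.cast_lt]; exact dg)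
  rw [hfg, modByMonic_self hy.1] at h1
  have nz : ∀ q : F[X], q.Monic → nrm v q ≠ 0 := by
    intro q hq h0
    have h2 : v (q.coeff q.natDegree) ≤ nrm v q :=
      Finset.le_sup (f := fun k => v (q.coeff k)) (natDegree_mem_support_of_nonzero hq.ne_zero)
    rw [h0, hq.coeff_natDegree, map_one] at h2
    exact absurd h2 (by simp)
  have h3 : nrm v (0 : F[X]) = 0 := by
    simp only [nrm, support_zero, Finset.sup_empty]
    exact le_antisymm bot_le zero_le'
  rw [h3] at h1
  rcases mul_eq_zero.1 h1.symm with h4 | h4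
  · exact nz f hf h4
  · exact nz g hg h4

lemma tw_succ (σ : F →+* F) (i : ℕ) (y : F[X]) : tw σ (i + 1) y = (tw σ i y).map σ :=
  Function.iterate_succ_apply' _ _ _

lemma tw_mon {σ : F →+* F} {n : ℕ} {y : F[X]} (hy : Mon n y) (i : ℕ) : Mon n (tw σ i y) := by
  induction i with
  | zero => exact hy
  | succ i ih =>
    rw [tw_succ]
    exact ⟨ih.1.map σ, by rw [Sym.map_deg]; exact ih.2⟩

/-- From (HG) and the gluing argument to the induction step. -/
theorem core_of_glue {σ : F →+* F} {Q n : ℕ} (hn : 3 ≤ n) (hQ : 2 ≤ Q)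
    (hHG : HGS F A σ Q n) (hG : Glue F A σ Q n) (hPP : PP F A σ Q n) : Core F A σ Q n := by
  intro c
  -- every `c_y` is determined by directions
  have hdat : ∀ y, Mon n y → Irreducible y → Supp (Pl σ y) n (fun g => c.c y g) := by
    intro y hy hirr
    by_cases hfix : y.map σ = y
    · intro f hf g hg _
      have z : ∀ g ∈ W F n, c.c y g = 0 := by
        intro g hg
        have h1 := c.c_frob' y g hy.1 hy.2 hg.1 (natDegree_lt_of_W hg)
        rw [hfix] at h1
        exact Sym.smul_eq_self hQ h1.symm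
      show c.c y f = c.c y g
      rw [z f hf, z g hg]
    · apply hHG y hy hirr hfix
      · intro f hf g hg
        exact c.c_mul y f g hy.1 hy.2 hirr hf.1 (natDegree_lt_of_W hf) hg.1 (natDegree_lt_of_W hg)
      · intro f hf
        rw [c.c_frob y f hy.1 hy.2 hf.1 (natDegree_lt_of_W hf), Nat.cast_smul_eq_nsmul]
      · intro a ha
        have hone : (1 : F[X]) ∈ W F n := mem_W one_ne_zero (by rw [natDegree_one]; omega)
        have h1 := c.c_const y 1 a hy.1 hy.2 one_ne_zero (natDegree_lt_of_W hone) ha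
        rw [mul_one] at h1
        rw [h1]
        have h2 := c.c_mul y 1 1 hy.1 hy.2 hirr one_ne_zero (natDegree_lt_of_W hone) one_ne_zero
          (natDegree_lt_of_W hone)
        have h3 : (1 : F[X]) %ₘ y = 1 := by
          rw [modByMonic_eq_self_iff hy.1, degree_eq_natDegree hy.1.ne_zero, hy.2]
          exact hone.2
        rw [mul_one, h3] at h2
        simpa using h2
  have hone : (1 : F[X]) ∈ W F n := mem_W one_ne_zero (by rw [natDegree_one]; omega)
  have cone : ∀ y, Mon n y → Irreducible y → c.c y 1 = 0 := by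
    intro y hy hirr
    have h2 := c.c_mul y 1 1 hy.1 hy.2 hirr one_ne_zero (natDegree_lt_of_W hone) one_ne_zero
      (natDegree_lt_of_W hone)
    have h3 : (1 : F[X]) %ₘ y = 1 := by
      rw [modByMonic_eq_self_iff hy.1, degree_eq_natDegree hy.1.ne_zero, hy.2]
      exact hone.2
    rw [mul_one, h3] at h2
    simpa using h2
  have ctw : ∀ y, Mon n y → ∀ g ∈ W F n, ∀ i, c.c (tw σ i y) g = (Q : ℚ) ^ i • c.c y g := by
    intro y hy g hg i
    induction i with
    | zero => simp [tw]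
    | succ i ih =>
      rw [tw_succ, c.c_frob' _ g (tw_mon hy i).1 (tw_mon hy i).2 hg.1 (natDegree_lt_of_W hg), ih,
        smul_smul, pow_succ']
  have Btw : ∀ x y, Mon n x → Mon n y → ∀ i, c.B (tw σ i x) y = (Q : ℚ) ^ i • c.B x y := by
    intro x y hx hy i
    induction i with
    | zero => simp [tw]
    | succ i ih =>
      rw [tw_succ, c.B_frob _ _ (tw_mon hx i).1 (tw_mon hx i).2 hy.1 hy.2, ih, smul_smul,
        pow_succ']
  have subW : ∀ x y : F[X], Mon n x → Mon n y → x ≠ y → x - y ∈ W F n := by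
    intro x y hx hy hxy
    refine ⟨sub_ne_zero.2 hxy, ?_⟩
    have h3 : (x - y).degree < x.degree := by
      apply degree_sub_lt
      · rw [degree_eq_natDegree hx.1.ne_zero, degree_eq_natDegree hy.1.ne_zero, hx.2, hy.2]
      · exact hx.1.ne_zero
      · rw [hx.1.leadingCoeff, hy.1.leadingCoeff]
    rwa [degree_eq_natDegree hx.1.ne_zero, hx.2] at h3
  have hsys : Sys σ Q n (fun g y => c.c y g) := by
    refine ⟨?_, ?_⟩
    · intro y hy hne
      obtain ⟨O, hO⟩ := hne
      have hirr : Irreducible y := irreducible_of_mult (by omega) hy hO.mult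
      refine ⟨?_, ?_, hdat y hy hirr⟩
      · intro f hf g hg
        exact c.c_mul y f g hy.1 hy.2 hirr hf.1 (natDegree_lt_of_W hf) hg.1 (natDegree_lt_of_W hg)
      · intro f hf
        rw [c.c_frob y f hy.1 hy.2 hf.1 (natDegree_lt_of_W hf), Nat.cast_smul_eq_nsmul]
    · intro x y hx hy _ _ i hi hxy
      have h1 := c.B_eq (tw σ i x) y (tw_mon hx i).1 (tw_mon hx i).2 hy.1 hy.2 hi
      have h2 := c.B_eq x y hx.1 hx.2 hy.1 hy.2 hxy
      rw [ctw x hx _ (subW _ _ (tw_mon hx i) hy hi) i, Btw x y hx hy i, h2] at h1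
      show c.c y (tw σ i x - y) - Q ^ i • c.c x (tw σ i x - y) =
        Q ^ i • (c.c y (x - y) - c.c x (x - y))
      have e : ∀ a : A, (Q ^ i) • a = ((Q : ℚ) ^ i) • a := by
        intro a
        rw [← Nat.cast_smul_eq_nsmul ℚ, Nat.cast_pow]
      rw [e, e]
      exact h1.symm
  intro y g hy dy hirr hg dg
  have hyM : Mon n y := ⟨hy, dy⟩
  by_cases hfix : y.map σ = y
  · have h1 := c.c_frob' y g hyM.1 hyM.2 hg dg
    rw [hfix] at h1
    exact Sym.smul_eq_self hQ h1.symm
  by_cases hne : (Pl σ y).Nonempty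
  · exact hG _ hsys y hyM hirr hfix hne (fun b' hb' => qsym_zero hPP hy hirr dy hb') g (mem_W hg dg)
  · have h1 := hdat y hyM hirr g (mem_W hg dg) 1 hone (fun O hO => absurd ⟨O, hO⟩ hne)
    exact h1.trans (cone y hyM hirr)

end Pool.Agent.LibG44
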