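import Pool.Agent.LibG44.SymB

/-! The induction on the degree. -/

set_option autoImplicit false

namespace Pool.Agent.LibG44

open Polynomial

/-- All symbols on extensions of degree `n` vanish. -/
def PP (F : Type*) [Field F] (A : Type*) [AddCommGroup A] [Module ℚ A]
    (Φ : F →+* F) (Q n : ℕ) : Prop :=
  ∀ π₀ : F[X], π₀.Monic → Irreducible π₀ → π₀.natDegree = n → ∀ S : Sym π₀ A, S.Frob Φ Q → S.Triv

/-- The conclusion of the gluing argument. -/
def Core (F : Type*) [Field F] (A : Type*) [AddCommGroup A] [Module ℚ A]
    (Φ : F →+* F) (Q n : ℕ) : Prop :=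
  ∀ c : CSys F A Φ Q n, ∀ y g : F[X], y.Monic → y.natDegree = n → Irreducible y → g ≠ 0 →
    g.natDegree < n → c.c y g = 0

theorem PP_of_core {F : Type*} [Field F] {A : Type*} [AddCommGroup A] [Module ℚ A]
    {Φ : F →+* F} {Q : ℕ} (hQ : 2 ≤ Q)
    (core : ∀ n, 3 ≤ n → PP F A Φ Q n → Core F A Φ Q n) : ∀ d, PP F A Φ Q d := by
  intro d
  induction d using Nat.strong_induction_on with
  | _ d ih =>
    intro π₀ hm hπ hd S hF
    have h3 := S.iso_three hπ hQ hF
    rw [hd] at h3
    have key : ∀ k, min 3 d + k ≤ d → S.Iso (min 3 d + k) := by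
      intro k
      induction k with
      | zero => intro _; exact h3
      | succ k ihk =>
        intro hk
        have hiso := ihk (by omega)
        set n := min 3 d + k with hn
        have hn3 : 3 ≤ n := by omega
        have hnd : n < d := by omega
        have hc := core n hn3 (ih n hnd)
        have hnd' : n < π₀.natDegree := by rw [hd]; exact hnd
        have := S.iso_succ hπ (by omega : 0 < n) hiso hnd' (fun y g hy dy hirr hg dg =>
          hc (S.cSys hπ (by omega : 0 < n) hF hiso hnd') y g hy dy hirr hg dg)
        exact this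
    have hdiso : S.Iso d := by
      have := key (d - min 3 d) (by omega)
      have e : min 3 d + (d - min 3 d) = d := by omega
      rwa [e] at this
    have hd0 : 0 < d := by
      rcases Nat.eq_zero_or_pos d with h | h
      · exfalso
        have h1 : π₀ = 1 := by
          apply eq_one_of_monic_natDegree_zero hm
          rw [hd, h]
        rw [h1] at hπ
        exact hπ.not_isUnit isUnit_one
      · exact h
    exact S.triv_of_iso hm hπ hdiso (by rw [hd]) (by rw [hd]; omega)

end Pool.Agent.LibG44
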