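import Pool.Agent.LibG44.Ind
import Pool.Agent.LibK2Tower.Symbol

/-! `K_2(E)` modulo the symbols `{f, e}` is a torsion group. -/

set_option autoImplicit false

namespace Pool.Agent.LibG44

open Polynomial Module Pool.Agent.LibK2Tower
open scoped TensorProduct

universe u w

section

variable {F : Type w} {E : Type u} [Field F] [Field E] [Algebra F E]

/-- The quotient of `K_2(E)` by the symbols `{f, e}`, tensored with the rationals. -/
abbrev KQ (F : Type w) (E : Type u) [Field F] [Field E] [Algebra F E] : Type u :=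
  ℚ ⊗[ℤ] (K2 E ⧸ baseSymbols F E)

/-- The map to `KQ`. -/
noncomputable def toKQ (F : Type w) (E : Type u) [Field F] [Field E] [Algebra F E] :
    K2 E →+ KQ F E :=
  (TensorProduct.mk ℤ ℚ (K2 E ⧸ baseSymbols F E) 1).toAddMonoidHom.comp
    (QuotientAddGroup.mk' (baseSymbols F E))

lemma torsion_of_toKQ {x : K2 E} (h : toKQ F E x = 0) : ∃ M : ℕ, 0 < M ∧ M • x ∈ baseSymbols F E := by
  have hl : IsLocalizedModule (nonZeroDivisors ℤ)
      (TensorProduct.mk ℤ ℚ (K2 E ⧸ baseSymbols F E) 1) :=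
    (isLocalizedModule_iff_isBaseChange (nonZeroDivisors ℤ) ℚ _).2
      (TensorProduct.isBaseChange ℤ (K2 E ⧸ baseSymbols F E) ℚ)
  have h1 : TensorProduct.mk ℤ ℚ (K2 E ⧸ baseSymbols F E) 1
      (QuotientAddGroup.mk' (baseSymbols F E) x) = 0 := h
  obtain ⟨c, hc⟩ := (IsLocalizedModule.eq_zero_iff (nonZeroDivisors ℤ) _).1 h1
  have hc0 : (c : ℤ) ≠ 0 := nonZeroDivisors.coe_ne_zero c
  have h2 : (c : ℤ) • x ∈ baseSymbols F E := by
    have h3 : QuotientAddGroup.mk' (baseSymbols F E) ((c : ℤ) • x) = 0 := by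
      rw [map_zsmul]; exact hc
    exact (QuotientAddGroup.eq_zero_iff _).1 h3
  refine ⟨(c : ℤ).natAbs, Int.natAbs_pos.2 hc0, ?_⟩
  rcases Int.natAbs_eq (c : ℤ) with h4 | h4
  · rw [h4, natCast_zsmul] at h2
    exact h2
  · rw [h4, neg_smul, natCast_zsmul] at h2
    exact neg_mem_iff.1 h2

open Classical in
/-- The symbol on `F[X]/minpoly`. -/
noncomputable def symK2 (ζ : E) (hζ : IsIntegral F ζ) : Sym (minpoly F ζ) (KQ F E) where
  b g h := if hgh : aeval ζ g ≠ 0 ∧ aeval ζ h ≠ 0 then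
    toKQ F E (symb (Units.mk0 _ hgh.1) (Units.mk0 _ hgh.2)) else 0
  mul_left g g' h hg hg' hh := by
    rw [minpoly.dvd_iff] at hg hg' hh
    have h1 : aeval ζ (g * g') ≠ 0 := by rw [map_mul]; exact mul_ne_zero hg hg'
    rw [dif_pos ⟨h1, hh⟩, dif_pos ⟨hg, hh⟩, dif_pos ⟨hg', hh⟩, ← map_add,
      ← isSymbol_symb.mul_left]
    congr 2
    ext
    simp
  mul_right g h h' hg hh hh' := by
    rw [minpoly.dvd_iff] at hg hh hh'
    have h1 : aeval ζ (h * h') ≠ 0 := by rw [map_mul]; exact mul_ne_zero hh hh'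
    rw [dif_pos ⟨hg, h1⟩, dif_pos ⟨hg, hh⟩, dif_pos ⟨hg, hh'⟩, ← map_add,
      ← isSymbol_symb.mul_right]
    congr 2
    ext
    simp
  congr_left g g' h hg hh hd := by
    rw [minpoly.dvd_iff] at hg hh hd
    have e : aeval ζ g = aeval ζ g' := by rwa [map_sub, sub_eq_zero] at hd
    have hg' : aeval ζ g' ≠ 0 := by rw [← e]; exact hg
    rw [dif_pos ⟨hg, hh⟩, dif_pos ⟨hg', hh⟩]
    congr 2
    ext
    exact e
  congr_right g h h' hg hh hd := by
    rw [minpoly.dvd_iff] at hg hh hd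
    have e : aeval ζ h = aeval ζ h' := by rwa [map_sub, sub_eq_zero] at hd
    have hh' : aeval ζ h' ≠ 0 := by rw [← e]; exact hh
    rw [dif_pos ⟨hg, hh⟩, dif_pos ⟨hg, hh'⟩]
    congr 2
    ext
    exact e
  steinberg g h hg hh hd := by
    rw [minpoly.dvd_iff] at hg hh hd
    rw [dif_pos ⟨hg, hh⟩, isSymbol_symb.steinberg _ _ ?_, map_zero]
    rw [map_sub, map_add, map_one, sub_eq_zero] at hd
    exact hd
  const a h ha hh := by
    rw [minpoly.dvd_iff] at hh
    have h1 : aeval ζ (C a) ≠ 0 := by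
      rw [aeval_C]
      exact (_root_.map_ne_zero _).2 ha
    rw [dif_pos ⟨h1, hh⟩]
    have h2 : symb (Units.mk0 _ h1) (Units.mk0 _ hh) ∈ baseSymbols F E := by
      apply AddSubgroup.subset_closure
      refine ⟨Units.mk0 a ha, Units.mk0 _ hh, ?_⟩
      congr 1
      ext
      simp
    have h3 : QuotientAddGroup.mk' (baseSymbols F E) (symb (Units.mk0 _ h1) (Units.mk0 _ hh)) = 0 :=
      (QuotientAddGroup.eq_zero_iff _).2 h2
    show (TensorProduct.mk ℤ ℚ (K2 E ⧸ baseSymbols F E) 1)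
      (QuotientAddGroup.mk' (baseSymbols F E) _) = 0
    rw [h3, map_zero]

lemma symK2_apply (ζ : E) (hζ : IsIntegral F ζ) {g h : F[X]} (hg : aeval ζ g ≠ 0)
    (hh : aeval ζ h ≠ 0) : (symK2 ζ hζ).b g h =
      toKQ F E (symb (Units.mk0 _ hg) (Units.mk0 _ hh)) :=
  dif_pos ⟨hg, hh⟩

lemma symK2_frob {p s : ℕ} [Fact p.Prime] [CharP F p] (ζ : E) (hζ : IsIntegral F ζ)
    (hfix : ζ ^ p ^ s = ζ) : (symK2 ζ hζ).Frob (iterateFrobenius F p s) (p ^ s) := by
  intro g h hg0 hh0 dg dh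
  have hg : aeval ζ g ≠ 0 := by
    rw [Ne, ← minpoly.dvd_iff]; exact Sym.not_dvd_of_deg hg0 dg
  have hh : aeval ζ h ≠ 0 := by
    rw [Ne, ← minpoly.dvd_iff]; exact Sym.not_dvd_of_deg hh0 dh
  haveI : CharP E p := (algebraMap F E).charP_iff_charP p |>.1 inferInstance
  have e : aeval ζ (g.map (iterateFrobenius F p s)) = (aeval ζ g) ^ p ^ s := by
    have h1 : (aeval ζ g) ^ p ^ s = iterateFrobenius E p s (aeval ζ g) :=
      (iterateFrobenius_def p s _).symm
    rw [h1, aeval_def, aeval_def, hom_eval₂, eval₂_map, iterateFrobenius_def, hfix]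
    congr 1
    ext a
    simp [iterateFrobenius_def]
  have hg' : aeval ζ (g.map (iterateFrobenius F p s)) ≠ 0 := by
    rw [e]; exact pow_ne_zero _ hg
  rw [symK2_apply ζ hζ hg' hh, symK2_apply ζ hζ hg hh]
  have e2 : Units.mk0 _ hg' = (Units.mk0 _ hg) ^ p ^ s := by
    ext
    simpa using e
  rw [e2, isSymbol_symb.pow_left, map_nsmul, ← Nat.cast_smul_eq_nsmul ℚ]

/-- `K_2(E)` modulo the symbols `{f, e}` is a torsion group, if all symbols on extensions of
degree `n = [E : F]` vanish. -/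
theorem torsion_of_PP {p s : ℕ} [Fact p.Prime] [CharP F p] (ζ : E) (hζ : IsIntegral F ζ)
    (hfix : ζ ^ p ^ s = ζ) (hgen : Algebra.adjoin F {ζ} = ⊤)
    (hPP : PP F (KQ F E) (iterateFrobenius F p s) (p ^ s) (minpoly F ζ).natDegree) (x : K2 E) :
    ∃ M : ℕ, 0 < M ∧ M • x ∈ baseSymbols F E := by
  apply torsion_of_toKQ
  have htriv := hPP (minpoly F ζ) (minpoly.monic hζ) (minpoly.irreducible hζ) rfl
    (symK2 ζ hζ) (symK2_frob ζ hζ hfix)
  have hsurj : ∀ e : E, ∃ g : F[X], aeval ζ g = e := by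
    intro e
    have h1 : e ∈ Algebra.adjoin F {ζ} := by rw [hgen]; trivial
    rw [Algebra.adjoin_singleton_eq_range_aeval] at h1
    exact h1
  induction x using K2.induction with
  | h0 => rw [map_zero]
  | hs u v =>
    obtain ⟨g, hg⟩ := hsurj (u : E)
    obtain ⟨h, hh⟩ := hsurj (v : E)
    have hg0 : aeval ζ g ≠ 0 := by rw [hg]; exact u.ne_zero
    have hh0 : aeval ζ h ≠ 0 := by rw [hh]; exact v.ne_zero
    have h1 := htriv g h (by rw [minpoly.dvd_iff]; exact hg0) (by rw [minpoly.dvd_iff]; exact hh0)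
    rw [symK2_apply ζ hζ hg0 hh0] at h1
    rw [← h1]
    congr 2
    · ext; exact hg.symm
    · ext; exact hh.symm
  | hn x hx => rw [map_neg, hx, neg_zero]
  | ha x y hx hy => rw [map_add, hx, hy, add_zero]

end

/-- A root of unity in characteristic `p` is fixed by some power of the Frobenius map. -/
lemma exists_fix {E : Type*} [Field E] {p : ℕ} [hp : Fact p.Prime] [CharP E p] {ζ : E} {m : ℕ}
    (hm : 0 < m) (hζ : ζ ^ m = 1) : ∃ s : ℕ, 0 < s ∧ ζ ^ p ^ s = ζ := by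
  obtain ⟨a, m', hm', rfl⟩ := Nat.exists_eq_pow_mul_and_not_dvd hm.ne' p hp.out.ne_one
  have h1 : ζ ^ m' = 1 := by
    have h2 : (ζ ^ m') ^ p ^ a = 1 ^ p ^ a := by
      rw [← pow_mul, mul_comm m', hζ, one_pow]
    exact (iterateFrobenius E p a).injective (by simpa [iterateFrobenius_def] using h2)
  have hm0 : 0 < m' := Nat.pos_of_ne_zero (by rintro rfl; simp at hm')
  have hc : Nat.Coprime p m' := (Nat.Prime.coprime_iff_not_dvd hp.out).2 hm'
  refine ⟨Nat.totient m', Nat.totient_pos.2 hm0, ?_⟩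
  have h2 := Nat.ModEq.pow_totient hc
  rw [Nat.ModEq.comm] at h2
  have h3 : m' ∣ p ^ Nat.totient m' - 1 := (Nat.modEq_iff_dvd' (Nat.one_le_pow _ _ hp.out.pos)).1 h2
  obtain ⟨c, hc'⟩ := h3
  have h4 : p ^ Nat.totient m' = m' * c + 1 := by
    have := Nat.one_le_pow (Nat.totient m') p hp.out.pos
    omega
  rw [h4, pow_succ, pow_mul, h1, one_pow, one_mul]

end Pool.Agent.LibG44
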