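import Pool.Agent.LibG44.Bridge
import Pool.Agent.LibG44.K2

/-! `K_2(E)` modulo the symbols `{f, e}` is a torsion group: reduction to (HG) and the gluing
argument. -/

set_option autoImplicit false

namespace Pool.Agent.LibG44

open Polynomial Module Pool.Agent.LibK2Tower Pool.Agent.LibG64

universe u w

theorem torsion_of_glue {F : Type w} {E : Type u} [Field F] [Field E] [Algebra F E] {p : ℕ}
    [Fact p.Prime] [CharP F p] {ζ : E} {m : ℕ} (hm : 0 < m) (hζ : ζ ^ m = 1)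
    (hgen : Algebra.adjoin F {ζ} = ⊤)
    (hHG : ∀ s : ℕ, 0 < s → ∀ n : ℕ, 3 ≤ n →
      HGS F (KQ F E) (iterateFrobenius F p s) (p ^ s) n)
    (hG : ∀ s : ℕ, 0 < s → ∀ n : ℕ, 3 ≤ n →
      Glue F (KQ F E) (iterateFrobenius F p s) (p ^ s) n) (x : K2 E) :
    ∃ M : ℕ, 0 < M ∧ M • x ∈ baseSymbols F E := by
  haveI : CharP E p := (algebraMap F E).charP_iff_charP p |>.1 inferInstance
  obtain ⟨s, hs, hfix⟩ := exists_fix (p := p) hm hζ
  have hint : IsIntegral F ζ :=
    ⟨X ^ m - 1, monic_X_pow_sub_C 1 hm.ne', by simp [hζ]⟩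
  have hQ : 2 ≤ p ^ s := by
    calc 2 ≤ p := (Fact.out : p.Prime).two_le
      _ = p ^ 1 := (pow_one p).symm
      _ ≤ p ^ s := Nat.pow_le_pow_right (Fact.out : p.Prime).pos hs
  have hcore : ∀ n, 3 ≤ n → PP F (KQ F E) (iterateFrobenius F p s) (p ^ s) n →
      Core F (KQ F E) (iterateFrobenius F p s) (p ^ s) n := fun n hn hPP =>
    core_of_glue hn hQ (hHG s hs n hn) (hG s hs n hn) hPP
  exact torsion_of_PP ζ hint hfix hgen (PP_of_core hQ hcore _) x

end Pool.Agent.LibG44
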