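import Mathlib

/-!
Symbols on the field `F[X]/π₀`, written on polynomials prime to `π₀`, with values in a vector space
over the rationals, trivial on constants and compatible with a Frobenius twist of the polynomials
of small degree.
-/

set_option autoImplicit false

namespace Pool.Agent.LibG44

open Polynomial

/-- A bimultiplicative symbol on the units of `F[X]/π₀`, trivial on constants, written on the
polynomials which are not divisible by `π₀`. -/
structure Sym {F : Type*} [Field F] (π₀ : F[X]) (A : Type*) [AddCommGroup A] where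
  b : F[X] → F[X] → A
  mul_left : ∀ g g' h, ¬ π₀ ∣ g → ¬ π₀ ∣ g' → ¬ π₀ ∣ h → b (g * g') h = b g h + b g' h
  mul_right : ∀ g h h', ¬ π₀ ∣ g → ¬ π₀ ∣ h → ¬ π₀ ∣ h' → b g (h * h') = b g h + b g h'
  congr_left : ∀ g g' h, ¬ π₀ ∣ g → ¬ π₀ ∣ h → π₀ ∣ g - g' → b g h = b g' h
  congr_right : ∀ g h h', ¬ π₀ ∣ g → ¬ π₀ ∣ h → π₀ ∣ h - h' → b g h = b g h'
  steinberg : ∀ g h, ¬ π₀ ∣ g → ¬ π₀ ∣ h → π₀ ∣ g + h - 1 → b g h = 0
  const : ∀ (a : F) h, a ≠ 0 → ¬ π₀ ∣ h → b (C a) h = 0

/-- The Frobenius condition for polynomials of degree less than the degree of `π₀`. -/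
def Sym.Frob {F : Type*} [Field F] {π₀ : F[X]} {A : Type*} [AddCommGroup A] [Module ℚ A]
    (S : Sym π₀ A) (Φ : F →+* F) (Q : ℕ) : Prop :=
  ∀ g h : F[X], g ≠ 0 → h ≠ 0 → g.natDegree < π₀.natDegree → h.natDegree < π₀.natDegree →
    S.b (g.map Φ) h = (Q : ℚ) • S.b g h

/-- The polynomials of degree less than `n` form an isotropic subspace. -/
def Sym.Iso {F : Type*} [Field F] {π₀ : F[X]} {A : Type*} [AddCommGroup A]
    (S : Sym π₀ A) (n : ℕ) : Prop :=
  ∀ g h : F[X], g ≠ 0 → h ≠ 0 → g.natDegree < n → h.natDegree < n → S.b g h = 0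

/-- The symbol vanishes. -/
def Sym.Triv {F : Type*} [Field F] {π₀ : F[X]} {A : Type*} [AddCommGroup A]
    (S : Sym π₀ A) : Prop :=
  ∀ g h : F[X], ¬ π₀ ∣ g → ¬ π₀ ∣ h → S.b g h = 0

/-- A system of multiplicative functions `c y` on the polynomials of degree less than `n`, indexed
by the monic polynomials `y` of degree `n`. -/
structure CSys (F : Type*) [Field F] (A : Type*) [AddCommGroup A] [Module ℚ A]
    (Φ : F →+* F) (Q n : ℕ) where
  c : F[X] → F[X] → A
  B : F[X] → F[X] → A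
  c_const : ∀ y g (a : F), y.Monic → y.natDegree = n → g ≠ 0 → g.natDegree < n → a ≠ 0 →
    c y (C a * g) = c y g
  c_mul : ∀ y g h, y.Monic → y.natDegree = n → Irreducible y → g ≠ 0 → g.natDegree < n →
    h ≠ 0 → h.natDegree < n → c y ((g * h) %ₘ y) = c y g + c y h
  c_red : ∀ y g, y.Monic → y.natDegree = n → ¬ Irreducible y → g ≠ 0 → g.natDegree < n →
    c y g = 0
  c_frob : ∀ y g, y.Monic → y.natDegree = n → g ≠ 0 → g.natDegree < n →
    c y (g.map Φ) = (Q : ℚ) • c y g
  c_frob' : ∀ y g, y.Monic → y.natDegree = n → g ≠ 0 → g.natDegree < n →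
    c (y.map Φ) g = (Q : ℚ) • c y g
  B_frob : ∀ y z, y.Monic → y.natDegree = n → z.Monic → z.natDegree = n →
    B (y.map Φ) z = (Q : ℚ) • B y z
  B_eq : ∀ y z, y.Monic → y.natDegree = n → z.Monic → z.natDegree = n → y ≠ z →
    B y z = c z (y - z) - c y (y - z)
  B_self : ∀ y, y.Monic → y.natDegree = n → B y y = 0

end Pool.Agent.LibG44
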