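import Pool.Agent.LibG44.Sym

/-! Elementary properties of symbols. -/

set_option autoImplicit false

namespace Pool.Agent.LibG44

open Polynomial

namespace Sym

variable {F : Type*} [Field F] {π₀ : F[X]} {A : Type*} [AddCommGroup A] [Module ℚ A]
  (S : Sym π₀ A)

omit [Module ℚ A] in
lemma not_dvd_of_deg {g : F[X]} (hg : g ≠ 0) (h : g.natDegree < π₀.natDegree) : ¬ π₀ ∣ g := by
  intro hd
  exact absurd (Polynomial.natDegree_le_of_dvd hd hg) (by omega)

lemma not_dvd_mul {F : Type*} [Field F] {π₀ : F[X]} (hπ : Irreducible π₀) {g h : F[X]}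
    (hg : ¬ π₀ ∣ g) (hh : ¬ π₀ ∣ h) : ¬ π₀ ∣ g * h := by
  intro hd
  rcases hπ.prime.dvd_or_dvd hd with h1 | h1
  · exact hg h1
  · exact hh h1

lemma exists_inv {F : Type*} [Field F] {π₀ : F[X]} (hπ : Irreducible π₀) {g : F[X]}
    (hg : ¬ π₀ ∣ g) : ∃ g', ¬ π₀ ∣ g' ∧ π₀ ∣ g * g' - 1 := by
  have hc : IsCoprime π₀ g := (hπ.coprime_iff_not_dvd).2 hg
  obtain ⟨u, v, huv⟩ := hc
  have h1 : π₀ ∣ g * v - 1 := ⟨-u, by linear_combination huv⟩
  refine ⟨v, ?_, h1⟩
  intro hv
  have h2 : π₀ ∣ 1 := by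
    have h3 := dvd_sub (Dvd.dvd.mul_left hv g) h1
    simpa using h3
  exact hπ.not_isUnit (isUnit_of_dvd_one h2)

lemma not_dvd_one {F : Type*} [Field F] {π₀ : F[X]} (hπ : Irreducible π₀) : ¬ π₀ ∣ 1 :=
  fun h => hπ.not_isUnit (isUnit_of_dvd_one h)

lemma not_dvd_C {F : Type*} [Field F] {π₀ : F[X]} (hπ : Irreducible π₀) {a : F} (ha : a ≠ 0) :
    ¬ π₀ ∣ C a := fun h =>
  hπ.not_isUnit (isUnit_of_dvd_unit h (Polynomial.isUnit_C.2 ha.isUnit))

omit [Module ℚ A] in
lemma one_left {h : F[X]} (hh : ¬ π₀ ∣ h) : S.b 1 h = 0 := by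
  have := S.const 1 h one_ne_zero hh
  simpa using this

omit [Module ℚ A] in
lemma one_right (hπ : Irreducible π₀) {g : F[X]} (hg : ¬ π₀ ∣ g) : S.b g 1 = 0 := by
  have := S.mul_right g 1 1 hg (not_dvd_one hπ) (not_dvd_one hπ)
  rw [mul_one] at this
  simpa using this

omit [Module ℚ A] in
lemma const_mul_left (hπ : Irreducible π₀) {g h : F[X]} {a : F} (ha : a ≠ 0) (hg : ¬ π₀ ∣ g)
    (hh : ¬ π₀ ∣ h) : S.b (C a * g) h = S.b g h := by
  rw [S.mul_left _ _ _ (not_dvd_C hπ ha) hg hh, S.const a h ha hh, zero_add]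

omit [Module ℚ A] in
lemma inv_left (hπ : Irreducible π₀) {g g' h : F[X]} (hg : ¬ π₀ ∣ g) (hg' : ¬ π₀ ∣ g')
    (hh : ¬ π₀ ∣ h) (hd : π₀ ∣ g * g' - 1) : S.b g' h = - S.b g h := by
  have h1 := S.mul_left g g' h hg hg' hh
  have h2 := S.congr_left (g * g') 1 h (not_dvd_mul hπ hg hg') hh hd
  rw [h2, S.one_left hh] at h1
  exact (neg_eq_of_add_eq_zero_right h1.symm).symm

omit [Module ℚ A] in
lemma inv_right (hπ : Irreducible π₀) {g h h' : F[X]} (hg : ¬ π₀ ∣ g) (hh : ¬ π₀ ∣ h)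
    (hh' : ¬ π₀ ∣ h') (hd : π₀ ∣ h * h' - 1) : S.b g h' = - S.b g h := by
  have h1 := S.mul_right g h h' hg hh hh'
  have h2 := S.congr_right g (h * h') 1 hg (not_dvd_mul hπ hh hh') hd
  rw [h2, S.one_right hπ hg] at h1
  exact (neg_eq_of_add_eq_zero_right h1.symm).symm

lemma zero_of_add_self {a : A} (h : a + a = 0) : a = 0 := by
  have h2 : (2 : ℚ) • a = 0 := by rw [two_smul]; exact h
  rcases smul_eq_zero.1 h2 with h3 | h3
  · norm_num at h3
  · exact h3

lemma neg_one_right (hπ : Irreducible π₀) {g : F[X]} (hg : ¬ π₀ ∣ g) : S.b g (-1) = 0 := by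
  have hm : ¬ π₀ ∣ (-1 : F[X]) := by
    rw [dvd_neg]; exact not_dvd_one hπ
  have h1 := S.mul_right g (-1) (-1) hg hm hm
  rw [neg_mul_neg, one_mul, S.one_right hπ hg] at h1
  exact zero_of_add_self h1.symm

lemma self (hπ : Irreducible π₀) {g : F[X]} (hg : ¬ π₀ ∣ g) : S.b g g = 0 := by
  by_cases h1 : π₀ ∣ g - 1
  · rw [S.congr_left g 1 g hg hg h1, S.one_left hg]
  · obtain ⟨g', hg', hd⟩ := exists_inv hπ hg
    have h1' : ¬ π₀ ∣ 1 - g := by
      rw [← neg_sub, dvd_neg]; exact h1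
    have h2 : ¬ π₀ ∣ 1 - g' := by
      intro h
      apply h1
      have h3 : π₀ ∣ g * g' - 1 + g * (1 - g') := dvd_add hd (Dvd.dvd.mul_left h g)
      have e : g * g' - 1 + g * (1 - g') = g - 1 := by ring
      rwa [e] at h3
    have s1 : S.b g (1 - g) = 0 := S.steinberg g (1 - g) hg h1' (by simp)
    have s2 : S.b g' (1 - g') = 0 := S.steinberg g' (1 - g') hg' h2 (by simp)
    have s3 : S.b g (1 - g') = 0 := by
      have := S.inv_left hπ hg hg' h2 hd
      rw [s2] at this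
      exact neg_eq_zero.1 this.symm
    have hm : ¬ π₀ ∣ (-1 : F[X]) := by
      rw [dvd_neg]; exact not_dvd_one hπ
    have hgm : ¬ π₀ ∣ g * (-1) := not_dvd_mul hπ hg hm
    have s4 : S.b g (1 - g) = S.b g (g * (-1) * (1 - g')) := by
      apply S.congr_right _ _ _ hg h1'
      have e : 1 - g - g * (-1) * (1 - g') = -(g * g' - 1) := by ring
      rw [e, dvd_neg]
      exact hd
    rw [s1, S.mul_right g _ _ hg hgm h2, s3, add_zero, S.mul_right g _ _ hg hg hm,
      S.neg_one_right hπ hg, add_zero] at s4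
    exact s4.symm

lemma antisymm (hπ : Irreducible π₀) {g h : F[X]} (hg : ¬ π₀ ∣ g) (hh : ¬ π₀ ∣ h) :
    S.b g h = - S.b h g := by
  have hgh := not_dvd_mul hπ hg hh
  have h1 := S.self hπ hgh
  rw [S.mul_left g h _ hg hh hgh, S.mul_right g g h hg hg hh, S.mul_right h g h hh hg hh,
    S.self hπ hg, S.self hπ hh, zero_add, add_zero] at h1
  exact eq_neg_of_add_eq_zero_left h1

lemma const_right (hπ : Irreducible π₀) {g : F[X]} {a : F} (ha : a ≠ 0) (hg : ¬ π₀ ∣ g) :
    S.b g (C a) = 0 := by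
  rw [S.antisymm hπ hg (not_dvd_C hπ ha), S.const a g ha hg, neg_zero]

lemma const_mul_right (hπ : Irreducible π₀) {g h : F[X]} {a : F} (ha : a ≠ 0) (hg : ¬ π₀ ∣ g)
    (hh : ¬ π₀ ∣ h) : S.b g (C a * h) = S.b g h := by
  rw [S.mul_right _ _ _ hg (not_dvd_C hπ ha) hh, S.const_right hπ ha hg, zero_add]

/-- The rule for three collinear vectors. -/
lemma collinear (hπ : Irreducible π₀) {x y z : F[X]} (hx : ¬ π₀ ∣ x) (hy : ¬ π₀ ∣ y)
    (hz : ¬ π₀ ∣ z) (f g : F) (h : π₀ ∣ C f * x + C g * y - z) :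
    S.b x y = S.b x z + S.b z y := by
  by_cases hf : f = 0
  · subst hf
    by_cases hg : g = 0
    · subst hg
      exfalso
      apply hz
      simpa using h
    · have h1 : π₀ ∣ C g * y - z := by simpa using h
      have e1 : S.b x z = S.b x y := by
        rw [← S.const_mul_right hπ hg hx hy]
        exact (S.congr_right x (C g * y) z hx (not_dvd_mul hπ (not_dvd_C hπ hg) hy) h1).symm
      have e2 : S.b z y = 0 := by
        rw [← S.congr_left (C g * y) z y (not_dvd_mul hπ (not_dvd_C hπ hg) hy) hy h1,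
          S.const_mul_left hπ hg hy hy, S.self hπ hy]
      rw [e1, e2, add_zero]
  · by_cases hg : g = 0
    · subst hg
      have h1 : π₀ ∣ C f * x - z := by simpa using h
      have e1 : S.b x z = 0 := by
        rw [← S.congr_right x (C f * x) z hx (not_dvd_mul hπ (not_dvd_C hπ hf) hx) h1,
          S.const_mul_right hπ hf hx hx, S.self hπ hx]
      have e2 : S.b z y = S.b x y := by
        rw [← S.const_mul_left hπ hf hx hy]
        exact (S.congr_left (C f * x) z y (not_dvd_mul hπ (not_dvd_C hπ hf) hx) hy h1).symm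
      rw [e1, e2, zero_add]
    · obtain ⟨w, hw, hd⟩ := exists_inv hπ hz
      have hxw := not_dvd_mul hπ hx hw
      have hyw := not_dvd_mul hπ hy hw
      have st := S.steinberg (C f * (x * w)) (C g * (y * w))
        (not_dvd_mul hπ (not_dvd_C hπ hf) hxw) (not_dvd_mul hπ (not_dvd_C hπ hg) hyw) (by
          have e : C f * (x * w) + C g * (y * w) - 1
              = (C f * x + C g * y - z) * w + (z * w - 1) := by ring
          rw [e]
          exact dvd_add (Dvd.dvd.mul_right h w) hd)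
      rw [S.const_mul_left hπ hf hxw (not_dvd_mul hπ (not_dvd_C hπ hg) hyw),
        S.const_mul_right hπ hg hxw hyw, S.mul_left x w _ hx hw hyw, S.mul_right x y w hx hy hw,
        S.mul_right w y w hw hy hw, S.self hπ hw, S.inv_right hπ hx hz hw hd,
        S.inv_left hπ hz hw hy hd, add_zero] at st
      rw [← sub_eq_zero]
      rw [← st]
      abel

end Sym

end Pool.Agent.LibG44
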