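import Pool.Agent.LibG44.SymA

/-! Isotropic subspaces and the system of functions attached to a symbol. -/

set_option autoImplicit false

namespace Pool.Agent.LibG44

open Polynomial

namespace Sym

variable {F : Type*} [Field F] {π₀ : F[X]} {A : Type*} [AddCommGroup A] [Module ℚ A]
  (S : Sym π₀ A) {Φ : F →+* F} {Q : ℕ}

/-- The map to the coefficients in degree less than three. -/
lemma exists_common (x y x' y' : F[X]) (hx : x.natDegree < 3) (hy : y.natDegree < 3)
    (hx' : x'.natDegree < 3) (hy' : y'.natDegree < 3)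
    (hi : ∀ f g : F, C f * x + C g * y = 0 → f = 0 ∧ g = 0)
    (hi' : ∀ f g : F, C f * x' + C g * y' = 0 → f = 0 ∧ g = 0) :
    ∃ f g f' g' : F, C f * x + C g * y = C f' * x' + C g' * y' ∧
      C f * x + C g * y ≠ 0 := by
  let L : (Fin 4 → F) →ₗ[F] (Fin 3 → F) :=
    { toFun := fun v k => v 0 * x.coeff k + v 1 * y.coeff k - v 2 * x'.coeff k - v 3 * y'.coeff k
      map_add' := by
        intro v w
        funext k
        simp only [Pi.add_apply]
        ring
      map_smul' := by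
        intro r v
        funext k
        simp only [Pi.smul_apply, smul_eq_mul, RingHom.id_apply]
        ring }
  have hker : LinearMap.ker L ≠ ⊥ := by
    intro hb
    have hinj := LinearMap.ker_eq_bot.1 hb
    have := LinearMap.finrank_le_finrank_of_injective hinj
    simp at this
  obtain ⟨v, hv, hv0⟩ := (Submodule.ne_bot_iff _).1 hker
  have hv' : L v = 0 := hv
  have key : C (v 0) * x + C (v 1) * y = C (v 2) * x' + C (v 3) * y' := by
    ext k
    by_cases hk : k < 3
    · have h1 := congrFun hv' ⟨k, hk⟩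
      have h2 : v 0 * x.coeff k + v 1 * y.coeff k - v 2 * x'.coeff k - v 3 * y'.coeff k = 0 := h1
      simp only [coeff_add, coeff_C_mul]
      linear_combination h2
    · have hk' : 3 ≤ k := not_lt.1 hk
      simp only [coeff_add, coeff_C_mul]
      rw [coeff_eq_zero_of_natDegree_lt (by omega : x.natDegree < k),
        coeff_eq_zero_of_natDegree_lt (by omega : y.natDegree < k),
        coeff_eq_zero_of_natDegree_lt (by omega : x'.natDegree < k),
        coeff_eq_zero_of_natDegree_lt (by omega : y'.natDegree < k)]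
      ring
  refine ⟨v 0, v 1, v 2, v 3, key, ?_⟩
  intro h0
  apply hv0
  obtain ⟨h1, h2⟩ := hi _ _ h0
  obtain ⟨h3, h4⟩ := hi' _ _ (key.symm.trans h0)
  funext k
  fin_cases k
  · exact h1
  · exact h2
  · exact h3
  · exact h4

lemma map_deg (g : F[X]) : (g.map Φ).natDegree = g.natDegree :=
  Polynomial.natDegree_map_eq_of_injective Φ.injective g

lemma map_ne {g : F[X]} (hg : g ≠ 0) : g.map Φ ≠ 0 := by
  intro h
  exact hg ((Polynomial.map_eq_zero_iff Φ.injective).1 h)

lemma frob_right (hπ : Irreducible π₀) (hF : S.Frob Φ Q) {g h : F[X]} (hg : g ≠ 0) (hh : h ≠ 0)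
    (dg : g.natDegree < π₀.natDegree) (dh : h.natDegree < π₀.natDegree) :
    S.b g (h.map Φ) = (Q : ℚ) • S.b g h := by
  have h1 : ¬ π₀ ∣ h.map Φ := not_dvd_of_deg (map_ne hh) (by rw [map_deg]; exact dh)
  rw [S.antisymm hπ (not_dvd_of_deg hg dg) h1, hF h g hh hg dh dg,
    S.antisymm hπ (not_dvd_of_deg hg dg) (not_dvd_of_deg hh dh), smul_neg]

omit [Module ℚ A] in
lemma smul_eq_self [Module ℚ A] (hQ : 2 ≤ Q) {a : A} (h : (Q : ℚ) • a = a) : a = 0 := by
  have h1 : ((Q : ℚ) - 1) • a = 0 := by rw [sub_smul, one_smul, h, sub_self]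
  rcases smul_eq_zero.1 h1 with h2 | h2
  · exfalso
    have : (2 : ℚ) ≤ Q := by exact_mod_cast hQ
    linarith
  · exact h2

lemma indep_of_ne {x y : F[X]} (hx : x ≠ 0) (hn : ∀ a : F, y ≠ C a * x) :
    ∀ f g : F, C f * x + C g * y = 0 → f = 0 ∧ g = 0 := by
  intro f g h
  by_cases hg : g = 0
  · subst hg
    have h1 : C f * x = 0 := by simpa using h
    refine ⟨?_, rfl⟩
    rcases mul_eq_zero.1 h1 with h2 | h2
    · exact C_eq_zero.1 h2
    · exact absurd h2 hx
  · exfalso
    apply hn (-(f / g))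
    have e : y = C (g⁻¹) * (C g * y) := by
      rw [← mul_assoc, ← C_mul, inv_mul_cancel₀ hg, C_1, one_mul]
    have e2 : C g * y = - (C f * x) := by linear_combination h
    rw [e, e2]
    rw [mul_neg, ← mul_assoc, ← C_mul, ← neg_mul, ← C_neg]
    congr 2
    field_simp

/-- The polynomials of degree at most two are isotropic. -/
theorem iso_three (hπ : Irreducible π₀) (hQ : 2 ≤ Q) (hF : S.Frob Φ Q) :
    S.Iso (min 3 π₀.natDegree) := by
  intro x y hx hy dx dy
  have dx3 : x.natDegree < 3 := lt_of_lt_of_le dx (min_le_left _ _)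
  have dy3 : y.natDegree < 3 := lt_of_lt_of_le dy (min_le_left _ _)
  have dxd : x.natDegree < π₀.natDegree := lt_of_lt_of_le dx (min_le_right _ _)
  have dyd : y.natDegree < π₀.natDegree := lt_of_lt_of_le dy (min_le_right _ _)
  have px : ¬ π₀ ∣ x := not_dvd_of_deg hx dxd
  have py : ¬ π₀ ∣ y := not_dvd_of_deg hy dyd
  by_cases hn : ∃ a : F, y = C a * x
  · obtain ⟨a, ha⟩ := hn
    have ha0 : a ≠ 0 := by
      intro h0
      apply hy
      rw [ha, h0, C_0, zero_mul]
    rw [ha, S.const_mul_right hπ ha0 px px, S.self hπ px]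
  · have hn' : ∀ a : F, y ≠ C a * x := fun a h => hn ⟨a, h⟩
    have hi := indep_of_ne hx hn'
    -- the minors
    have hi' : ∀ f g : F, C f * x.map Φ + C g * y.map Φ = 0 → f = 0 ∧ g = 0 := by
      apply indep_of_ne (map_ne hx)
      intro a ha
      -- `Φ (y_i) = a Φ (x_i)` for all `i`, hence `a` is a value of `Φ`
      obtain ⟨i, hi0⟩ : ∃ i, x.coeff i ≠ 0 := by
        by_contra hc
        push Not at hc
        exact hx (Polynomial.ext (by simpa using hc))
      have hΦi : Φ (x.coeff i) ≠ 0 := by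
        rw [Ne, map_eq_zero]
        exact hi0
      have e1 : ∀ k, Φ (y.coeff k) = a * Φ (x.coeff k) := by
        intro k
        have := congrArg (fun q => q.coeff k) ha
        simpa using this
      apply hn' (y.coeff i / x.coeff i)
      ext k
      rw [coeff_C_mul]
      apply Φ.injective
      rw [map_mul, map_div₀, e1 k, e1 i]
      field_simp
    obtain ⟨f, g, f', g', he, hz0⟩ := exists_common x y (x.map Φ) (y.map Φ) dx3 dy3
      (by rw [map_deg]; exact dx3) (by rw [map_deg]; exact dy3) hi hi'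
    set z := C f * x + C g * y with hz
    have dz : z.natDegree < π₀.natDegree := by
      rw [hz]
      refine lt_of_le_of_lt (natDegree_add_le _ _) (max_lt ?_ ?_)
      · exact lt_of_le_of_lt (natDegree_C_mul_le _ _) dxd
      · exact lt_of_le_of_lt (natDegree_C_mul_le _ _) dyd
    have pz : ¬ π₀ ∣ z := not_dvd_of_deg hz0 dz
    have px' : ¬ π₀ ∣ x.map Φ := not_dvd_of_deg (map_ne hx) (by rw [map_deg]; exact dxd)
    have py' : ¬ π₀ ∣ y.map Φ := not_dvd_of_deg (map_ne hy) (by rw [map_deg]; exact dyd)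
    have c1 := S.collinear hπ px py pz f g (by rw [← hz, sub_self]; exact dvd_zero _)
    have c2 := S.collinear hπ px' py' pz f' g' (by rw [← he, sub_self]; exact dvd_zero _)
    have h1 : S.b (x.map Φ) (y.map Φ) = (Q : ℚ) • (Q : ℚ) • S.b x y := by
      rw [hF x (y.map Φ) hx (map_ne hy) dxd (by rw [map_deg]; exact dyd),
        S.frob_right hπ hF hx hy dxd dyd]
    have h2 : S.b (x.map Φ) z = (Q : ℚ) • S.b x z := hF x z hx hz0 dxd dz
    have h3 : S.b z (y.map Φ) = (Q : ℚ) • S.b z y := S.frob_right hπ hF hz0 hy dz dyd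
    rw [h1, h2, h3, ← smul_add, ← c1] at c2
    have hQ0 : (Q : ℚ) ≠ 0 := by
      have : (2 : ℚ) ≤ Q := by exact_mod_cast hQ
      intro h
      rw [h] at this
      norm_num at this
    have c3 := smul_right_injective A hQ0 c2
    exact smul_eq_self hQ c3

lemma exists_quot (hm : π₀.Monic) (hπ : Irreducible π₀) {m : ℕ} (hmd : m ≤ π₀.natDegree)
    (h2 : π₀.natDegree < 2 * m) {g : F[X]} (hg : ¬ π₀ ∣ g) :
    ∃ u v : F[X], u ≠ 0 ∧ v ≠ 0 ∧ u.natDegree < m ∧ v.natDegree < m ∧ π₀ ∣ g * u - v := by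
  have hd0 : 0 < π₀.natDegree := by
    rcases Nat.eq_zero_or_pos π₀.natDegree with h | h
    · exact absurd (Polynomial.isUnit_iff_degree_eq_zero.2
        (by rw [degree_eq_natDegree hπ.ne_zero, h]; rfl)) hπ.not_isUnit
    · exact h
  let L₀ : (degreeLT F m × degreeLT F m) →ₗ[F] F[X] :=
    { toFun := fun w => (g * (w.1 : F[X]) - (w.2 : F[X])) %ₘ π₀
      map_add' := by
        intro v w
        rw [← Polynomial.add_modByMonic]
        congr 1
        simp only [Prod.fst_add, Prod.snd_add, Submodule.coe_add]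
        ring
      map_smul' := by
        intro r v
        rw [RingHom.id_apply, ← Polynomial.smul_modByMonic]
        congr 1
        simp only [Prod.smul_fst, Prod.smul_snd, Submodule.coe_smul, smul_sub, mul_smul_comm] }
  let L : (degreeLT F m × degreeLT F m) →ₗ[F] degreeLT F π₀.natDegree :=
    L₀.codRestrict _ (by
      intro w
      rw [mem_degreeLT]
      have := Polynomial.degree_modByMonic_lt (g * (w.1 : F[X]) - (w.2 : F[X])) hm
      rwa [degree_eq_natDegree hπ.ne_zero] at this)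
  have f1 : Module.finrank F (degreeLT F m) = m := by
    rw [(degreeLTEquiv F m).finrank_eq]; simp
  have f2 : Module.finrank F (degreeLT F π₀.natDegree) = π₀.natDegree := by
    rw [(degreeLTEquiv F π₀.natDegree).finrank_eq]; simp
  haveI : Module.Finite F (degreeLT F m) := Module.Finite.equiv (degreeLTEquiv F m).symm
  haveI : Module.Finite F (degreeLT F π₀.natDegree) :=
    Module.Finite.equiv (degreeLTEquiv F π₀.natDegree).symm
  have hker : LinearMap.ker L ≠ ⊥ := by
    intro hb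
    have hinj := LinearMap.ker_eq_bot.1 hb
    have := LinearMap.finrank_le_finrank_of_injective hinj
    rw [Module.finrank_prod, f1, f2] at this
    omega
  obtain ⟨w, hw, hw0⟩ := (Submodule.ne_bot_iff _).1 hker
  have hw' : L w = 0 := hw
  have h1 : (g * (w.1 : F[X]) - (w.2 : F[X])) %ₘ π₀ = 0 := congrArg Subtype.val hw'
  have h3 : π₀ ∣ g * (w.1 : F[X]) - (w.2 : F[X]) := (modByMonic_eq_zero_iff_dvd hm).1 h1
  have lt_of : ∀ q : degreeLT F m, (q : F[X]) ≠ 0 → (q : F[X]).natDegree < m := by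
    intro q hq
    have := mem_degreeLT.1 q.2
    rwa [degree_eq_natDegree hq, Nat.cast_lt] at this
  have hu : (w.1 : F[X]) ≠ 0 := by
    intro hu
    rw [hu, mul_zero, zero_sub, dvd_neg] at h3
    by_cases hv : (w.2 : F[X]) = 0
    · exact hw0 (Prod.ext (Subtype.ext hu) (Subtype.ext hv))
    · exact not_dvd_of_deg hv (lt_of_lt_of_le (lt_of _ hv) hmd) h3
  have hv : (w.2 : F[X]) ≠ 0 := by
    intro hv
    rw [hv, sub_zero] at h3
    exact not_dvd_mul hπ hg (not_dvd_of_deg hu (lt_of_lt_of_le (lt_of _ hu) hmd)) h3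
  exact ⟨w.1, w.2, hu, hv, lt_of _ hu, lt_of _ hv, h3⟩

/-- Large isotropic subspaces. -/
theorem triv_of_iso (hm : π₀.Monic) (hπ : Irreducible π₀) {m : ℕ} (hiso : S.Iso m)
    (hmd : m ≤ π₀.natDegree) (h2 : π₀.natDegree < 2 * m) : S.Triv := by
  have red : ∀ g : F[X], ¬ π₀ ∣ g → ∃ u v : F[X], u ≠ 0 ∧ v ≠ 0 ∧ u.natDegree < m ∧
      v.natDegree < m ∧ ¬ π₀ ∣ u ∧ ¬ π₀ ∣ v ∧
      (∀ h, ¬ π₀ ∣ h → S.b g h = S.b v h - S.b u h) := by
    intro g hg
    obtain ⟨u, v, hu, hv, du, dv, hd⟩ := exists_quot hm hπ hmd h2 hg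
    have pu : ¬ π₀ ∣ u := not_dvd_of_deg hu (lt_of_lt_of_le du hmd)
    have pv : ¬ π₀ ∣ v := not_dvd_of_deg hv (lt_of_lt_of_le dv hmd)
    refine ⟨u, v, hu, hv, du, dv, pu, pv, fun h hh => ?_⟩
    have h1 := S.mul_left g u h hg pu hh
    rw [S.congr_left (g * u) v h (not_dvd_mul hπ hg pu) hh hd] at h1
    rw [h1, add_sub_cancel_right]
  intro g h hg hh
  obtain ⟨u, v, hu, hv, du, dv, pu, pv, e⟩ := red g hg
  obtain ⟨u', v', hu', hv', du', dv', pu', pv', e'⟩ := red h hh
  rw [e h hh, S.antisymm hπ pv hh, S.antisymm hπ pu hh, e' v pv, e' u pu,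
    hiso v' v hv' hv dv' dv, hiso u' v hu' hv du' dv, hiso v' u hv' hu dv' du,
    hiso u' u hu' hu du' du]
  simp

/-- The functions `b(·, y)` are multiplicative modulo `y`. -/
lemma mul_mod (hπ : Irreducible π₀) {n : ℕ} (hiso : S.Iso n) (hn : n < π₀.natDegree)
    {y : F[X]} (hy : y.Monic) (dy : y.natDegree = n) (hirr : Irreducible y) {g h : F[X]}
    (hg : g ≠ 0) (dg : g.natDegree < n) (hh : h ≠ 0) (dh : h.natDegree < n) :
    S.b ((g * h) %ₘ y) y = S.b g y + S.b h y := by
  have pg : ¬ π₀ ∣ g := not_dvd_of_deg hg (dg.trans hn)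
  have ph : ¬ π₀ ∣ h := not_dvd_of_deg hh (dh.trans hn)
  have py : ¬ π₀ ∣ y := not_dvd_of_deg hy.ne_zero (by rw [dy]; exact hn)
  have pgh : ¬ π₀ ∣ g * h := not_dvd_mul hπ pg ph
  set r := (g * h) %ₘ y with hr
  set q := (g * h) /ₘ y with hq
  have hdiv : r + y * q = g * h := modByMonic_add_div (g * h) y
  have hr0 : r ≠ 0 := by
    intro h0
    have h1 : y ∣ g * h := (modByMonic_eq_zero_iff_dvd hy).1 h0
    rcases hirr.prime.dvd_or_dvd h1 with h2 | h2
    · exact not_dvd_of_deg hg (by rw [dy]; exact dg) h2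
    · exact not_dvd_of_deg hh (by rw [dy]; exact dh) h2
  have dr : r.natDegree < n := by
    rw [← dy]
    apply natDegree_modByMonic_lt _ hy
    intro h1
    rw [h1] at hirr
    exact hirr.not_isUnit isUnit_one
  have pr : ¬ π₀ ∣ r := not_dvd_of_deg hr0 (dr.trans hn)
  by_cases hq0 : q = 0
  · rw [hq0, mul_zero, add_zero] at hdiv
    rw [hdiv, S.mul_left g h y pg ph py]
  · have dq : q.natDegree < n := by
      have e1 : q.natDegree = (g * h).natDegree - y.natDegree := natDegree_divByMonic _ hy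
      rw [natDegree_mul hg hh, dy] at e1
      omega
    have pq : ¬ π₀ ∣ q := not_dvd_of_deg hq0 (dq.trans hn)
    have pyq : ¬ π₀ ∣ y * q := not_dvd_mul hπ py pq
    have c := S.collinear hπ pr pyq pgh 1 1 (by
      rw [C_1, one_mul, one_mul, hdiv, sub_self]; exact dvd_zero _)
    rw [S.mul_right r y q pr py pq, hiso r q hr0 hq0 dr dq, add_zero,
      S.mul_right r g h pr pg ph, hiso r g hr0 hg dr dg, hiso r h hr0 hh dr dh, add_zero,
      zero_add, S.mul_right (g * h) y q pgh py pq, S.mul_left g h q pg ph pq,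
      hiso g q hg hq0 dg dq, hiso h q hh hq0 dh dq, add_zero, add_zero,
      S.mul_left g h y pg ph py] at c
    exact c

/-- For reducible `y` the function `b(·, y)` vanishes. -/
lemma red_zero {n : ℕ} (hiso : S.Iso n) (hn : n < π₀.natDegree)
    {y : F[X]} (hy : y.Monic) (dy : y.natDegree = n) (hirr : ¬ Irreducible y) (hn1 : 0 < n)
    {g : F[X]} (hg : g ≠ 0) (dg : g.natDegree < n) : S.b g y = 0 := by
  have hu : y ≠ 1 := by
    intro h
    rw [h, natDegree_one] at dy
    omega
  obtain ⟨u, v, hum, hvm, huv, hdeg⟩ : ∃ u v : F[X], u.Monic ∧ v.Monic ∧ u * v = y ∧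
      u.natDegree < n ∧ v.natDegree < n := by
    by_contra hc
    apply hirr
    rw [hy.irreducible_iff_natDegree']
    refine ⟨hu, fun f g hf hg' hfg hmem => hc ⟨f, g, hf, hg', hfg, ?_⟩⟩
    have e := congrArg natDegree hfg
    rw [hf.natDegree_mul hg', dy] at e
    rw [Finset.mem_Ioc] at hmem
    rw [dy] at hmem
    constructor <;> omega
  have pu : ¬ π₀ ∣ u := not_dvd_of_deg hum.ne_zero (hdeg.1.trans hn)
  have pv : ¬ π₀ ∣ v := not_dvd_of_deg hvm.ne_zero (hdeg.2.trans hn)
  rw [← huv, S.mul_right g u v (not_dvd_of_deg hg (dg.trans hn)) pu pv,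
    hiso g u hg hum.ne_zero dg hdeg.1, hiso g v hg hvm.ne_zero dg hdeg.2, add_zero]

/-- The system of functions attached to a symbol. -/
noncomputable def cSys (hπ : Irreducible π₀) {n : ℕ} (hn1 : 0 < n) (hF : S.Frob Φ Q)
    (hiso : S.Iso n) (hn : n < π₀.natDegree) : CSys F A Φ Q n where
  c y g := S.b g y
  B y z := S.b y z
  c_const y g a hy dy hg dg ha := S.const_mul_left hπ ha (not_dvd_of_deg hg (dg.trans hn))
    (not_dvd_of_deg hy.ne_zero (by rw [dy]; exact hn))
  c_mul y g h hy dy hirr hg dg hh dh := S.mul_mod hπ hiso hn hy dy hirr hg dg hh dh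
  c_red y g hy dy hirr hg dg := S.red_zero hiso hn hy dy hirr hn1 hg dg
  c_frob y g hy dy hg dg := hF g y hg hy.ne_zero (dg.trans hn) (by rw [dy]; exact hn)
  c_frob' y g hy dy hg dg := S.frob_right hπ hF hg hy.ne_zero (dg.trans hn) (by rw [dy]; exact hn)
  B_frob y z hy dy hz dz := hF y z hy.ne_zero hz.ne_zero (by rw [dy]; exact hn)
    (by rw [dz]; exact hn)
  B_eq y z hy dy hz dz hyz := by
    have hne : y - z ≠ 0 := sub_ne_zero.2 hyz
    have py : ¬ π₀ ∣ y := not_dvd_of_deg hy.ne_zero (by rw [dy]; exact hn)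
    have pz : ¬ π₀ ∣ z := not_dvd_of_deg hz.ne_zero (by rw [dz]; exact hn)
    have pyz : ¬ π₀ ∣ y - z := not_dvd_of_deg hne (by
      refine lt_of_le_of_lt (natDegree_sub_le _ _) ?_
      rw [dy, dz, max_self]; exact hn)
    rw [S.collinear hπ py pz pyz 1 (-1) (by
      have e : C 1 * y + C (-1) * z - (y - z) = 0 := by
        rw [C_neg, C_1]; ring
      rw [e]; exact dvd_zero _), S.antisymm hπ py pyz]
    abel
  B_self y hy dy := S.self hπ (not_dvd_of_deg hy.ne_zero (by rw [dy]; exact hn))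

/-- If all the functions `b(·, y)` vanish, then the next space is isotropic. -/
theorem iso_succ (hπ : Irreducible π₀) {n : ℕ} (hn1 : 0 < n) (hiso : S.Iso n)
    (hn : n < π₀.natDegree)
    (h0 : ∀ y g : F[X], y.Monic → y.natDegree = n → Irreducible y → g ≠ 0 → g.natDegree < n →
      S.b g y = 0) : S.Iso (n + 1) := by
  have h1 : ∀ y g : F[X], y.Monic → y.natDegree = n → g ≠ 0 → g.natDegree < n →
      S.b g y = 0 := by
    intro y g hy dy hg dg
    by_cases hirr : Irreducible y
    · exact h0 y g hy dy hirr hg dg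
    · exact S.red_zero hiso hn hy dy hirr hn1 hg dg
  have h2 : ∀ y z : F[X], y.Monic → y.natDegree = n → z.Monic → z.natDegree = n →
      S.b y z = 0 := by
    intro y z hy dy hz dz
    have py : ¬ π₀ ∣ y := not_dvd_of_deg hy.ne_zero (by rw [dy]; exact hn)
    have pz : ¬ π₀ ∣ z := not_dvd_of_deg hz.ne_zero (by rw [dz]; exact hn)
    by_cases hyz : y = z
    · rw [hyz]; exact S.self hπ pz
    · have hne : y - z ≠ 0 := sub_ne_zero.2 hyz
      have dd : (y - z).natDegree < n := by
        have h3 : (y - z).degree < y.degree := by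
          apply degree_sub_lt
          · rw [degree_eq_natDegree hy.ne_zero, degree_eq_natDegree hz.ne_zero, dy, dz]
          · exact hy.ne_zero
          · rw [hy.leadingCoeff, hz.leadingCoeff]
        rw [degree_eq_natDegree hne, degree_eq_natDegree hy.ne_zero, Nat.cast_lt, dy] at h3
        exact h3
      have pyz : ¬ π₀ ∣ y - z := not_dvd_of_deg hne (dd.trans hn)
      rw [S.collinear hπ py pz pyz 1 (-1) (by
        have e : C 1 * y + C (-1) * z - (y - z) = 0 := by
          rw [C_neg, C_1]; ring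
        rw [e]; exact dvd_zero _), S.antisymm hπ py pyz, h1 y _ hy dy hne dd,
        h1 z _ hz dz hne dd]
      simp
  have monic : ∀ g : F[X], g ≠ 0 → ∃ a : F, a ≠ 0 ∧ ∃ g' : F[X], g'.Monic ∧ g = C a * g' ∧
      g'.natDegree = g.natDegree := by
    intro g hg
    have hl : g.leadingCoeff ≠ 0 := leadingCoeff_ne_zero.2 hg
    refine ⟨g.leadingCoeff, hl, g * C g.leadingCoeff⁻¹, monic_mul_leadingCoeff_inv hg, ?_, ?_⟩
    · rw [mul_comm g, ← mul_assoc, ← C_mul, mul_inv_cancel₀ hl, C_1, one_mul]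
    · rw [natDegree_mul_C (inv_ne_zero hl)]
  intro g h hg hh dg dh
  obtain ⟨a, ha, g', hg', rfl, dg'⟩ := monic g hg
  obtain ⟨a', ha', h', hh', rfl, dh'⟩ := monic h hh
  rw [← dg'] at dg
  rw [← dh'] at dh
  have pg : ¬ π₀ ∣ g' := not_dvd_of_deg hg'.ne_zero (by omega)
  have ph : ¬ π₀ ∣ h' := not_dvd_of_deg hh'.ne_zero (by omega)
  rw [S.const_mul_left hπ ha pg (not_dvd_mul hπ (not_dvd_C hπ ha') ph),
    S.const_mul_right hπ ha' pg ph]
  rcases Nat.lt_succ_iff_lt_or_eq.1 dg with d1 | d1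
  · rcases Nat.lt_succ_iff_lt_or_eq.1 dh with d2 | d2
    · exact hiso g' h' hg'.ne_zero hh'.ne_zero d1 d2
    · exact h1 h' g' hh' d2 hg'.ne_zero d1
  · rcases Nat.lt_succ_iff_lt_or_eq.1 dh with d2 | d2
    · rw [S.antisymm hπ pg ph, h1 g' h' hg' d1 hh'.ne_zero d2, neg_zero]
    · exact h2 g' h' hg' d1 hh' d2

end Sym

end Pool.Agent.LibG44
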